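import Mathlib

set_option autoImplicit false

/-!
# MP_39baa9_co: vertices of small degree in 3-edge-critical graphs, even degree bound

For every even `r ≥ 4` there is `N(r)` such that every connected 3-edge-critical graph on at least
`N(r)` vertices has at most `r` vertices of degree at most `r`.
-/

namespace Pool.Agent.Results.MP_39baa9_co.EvenDegreeBound

open SimpleGraph Finset

/-- `D` is a dominating set: every vertex outside `D` has a neighbour in `D`. -/
def Dominating {V : Type} (G : SimpleGraph V) (D : Finset V) : Prop :=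
  ∀ v, v ∉ D → ∃ u ∈ D, G.Adj v u

/-- The domination number. -/
noncomputable def gamma {V : Type} (G : SimpleGraph V) : ℕ :=
  sInf {k | ∃ D : Finset V, Dominating G D ∧ D.card = k}

/-- `G` is `k`-edge-critical: `γ(G) = k` and adding any missing edge lowers the domination
number. -/
def EdgeCritical {V : Type} (k : ℕ) (G : SimpleGraph V) : Prop :=
  gamma G = k ∧ ∀ u v : V, u ≠ v → ¬ G.Adj u v → gamma (G ⊔ SimpleGraph.edge u v) < k

/-- the number of vertices of degree at most `r` -/
noncomputable def lowDegree {V : Type} (G : SimpleGraph V) (r : ℕ) : ℕ :=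
  {v : V | (G.neighborSet v).ncard ≤ r}.ncard

section Basic

variable {V : Type} [Fintype V] {G : SimpleGraph V}

lemma gamma_le {G : SimpleGraph V} {D : Finset V} (h : Dominating G D) : gamma G ≤ D.card :=
  Nat.sInf_le ⟨D, h, rfl⟩

lemma exists_gamma (G : SimpleGraph V) : ∃ D : Finset V, Dominating G D ∧ D.card = gamma G :=
  Nat.sInf_mem (s := {k | ∃ D : Finset V, Dominating G D ∧ D.card = k})
    ⟨_, Finset.univ, fun v hv => absurd (Finset.mem_univ v) hv, rfl⟩

/-- `{u, x}` dominates every vertex except `v` -/
def Pt (G : SimpleGraph V) (u x v : V) : Prop :=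
  x ≠ u ∧ x ≠ v ∧ ¬ G.Adj x v ∧ ∀ y, y ≠ v → y = u ∨ G.Adj y u ∨ y = x ∨ G.Adj y x

/-- no two vertices dominate -/
lemma no_pair (hg : gamma G = 3) (a b : V) :
    ∃ y, y ≠ a ∧ ¬ G.Adj y a ∧ y ≠ b ∧ ¬ G.Adj y b := by
  classical
  by_contra hcon
  push Not at hcon
  have : Dominating G {a, b} := by
    intro y hy
    simp only [Finset.mem_insert, Finset.mem_singleton, not_or] at hy
    by_cases h : G.Adj y a
    · exact ⟨a, by simp, h⟩
    · exact ⟨b, by simp, hcon y hy.1 h hy.2⟩
  have h1 := gamma_le this
  have h2 : ({a, b} : Finset V).card ≤ 2 := Finset.card_le_two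
  omega

lemma crit_pair (hc : G.Connected) (hcrit : EdgeCritical 3 G) {u v : V} (huv : u ≠ v)
    (hnuv : ¬ G.Adj u v) : ∃ x, Pt G u x v ∨ Pt G v x u := by
  classical
  obtain ⟨hg, hloc⟩ := hcrit
  have hlt := hloc u v huv hnuv
  obtain ⟨D, hD, hDc⟩ := exists_gamma (G ⊔ SimpleGraph.edge u v)
  have hD2 : D.card ≤ 2 := by omega
  have hnD : ¬ Dominating G D := by
    intro h
    have := gamma_le h
    omega
  unfold Dominating at hnD
  push Not at hnD
  obtain ⟨t, htD, ht⟩ := hnD
  obtain ⟨s, hsD, hst⟩ := hD t htD
  have hst' : (t = u ∧ s = v) ∨ (t = v ∧ s = u) := by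
    rw [SimpleGraph.sup_adj] at hst
    rcases hst with h | h
    · exact absurd h (ht s hsD)
    · rw [SimpleGraph.edge_adj] at h
      rcases h.1 with h | h
      · exact Or.inl h
      · exact Or.inr h
  have hdomD : ∀ y, y ∉ D → y ≠ v → y ≠ u → ∃ z ∈ D, G.Adj y z := by
    intro y hyD hyv hyu
    obtain ⟨z, hz, hadj⟩ := hD y hyD
    rw [SimpleGraph.sup_adj] at hadj
    rcases hadj with h | h
    · exact ⟨z, hz, h⟩
    · rw [SimpleGraph.edge_adj] at h
      rcases h.1 with h | h
      · exact absurd h.1 hyu
      · exact absurd h.1 hyv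
  have hmain : ∀ u v : V, u ≠ v → ¬ G.Adj u v →
      (∀ y, y ∉ D → y ≠ v → y ≠ u → ∃ z ∈ D, G.Adj y z) → v ∉ D → u ∈ D →
      (∀ z ∈ D, ¬ G.Adj v z) → ∃ x, Pt G u x v := by
    intro u v huv hnuv hdomD hvD huD hvn
    have hD1 : ∃ x, x ≠ u ∧ x ∈ D := by
      by_contra hcon
      push Not at hcon
      have hDu : ∀ z ∈ D, z = u := by
        intro z hz; by_contra h; exact hcon z h hz
      -- a neighbour of v
      have hw : ∃ w, G.Adj v w := by
        obtain ⟨W⟩ := hc.preconnected v u
        cases W with
        | nil => exact absurd rfl huv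
        | cons h _ => exact ⟨_, h⟩
      obtain ⟨w, hvw⟩ := hw
      have : Dominating G {u, w} := by
        intro y hy
        simp only [Finset.mem_insert, Finset.mem_singleton, not_or] at hy
        by_cases hyv : y = v
        · subst hyv; exact ⟨w, by simp, hvw⟩
        · have hyD : y ∉ D := fun h => hy.1 (hDu y h)
          obtain ⟨z, hz, hadj⟩ := hdomD y hyD hyv hy.1
          rw [hDu z hz] at hadj
          exact ⟨u, by simp, hadj⟩
      have h3 := gamma_le this
      have h4 : ({u, w} : Finset V).card ≤ 2 := Finset.card_le_two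
      omega
    obtain ⟨x, hxu, hxD⟩ := hD1
    have hDux : ∀ z ∈ D, z = u ∨ z = x := by
      have h1 : ({u, x} : Finset V) ⊆ D := by
        intro z hz
        simp only [Finset.mem_insert, Finset.mem_singleton] at hz
        rcases hz with rfl | rfl
        · exact huD
        · exact hxD
      have h2 : ({u, x} : Finset V).card = 2 := Finset.card_pair hxu.symm
      have h3 := Finset.eq_of_subset_of_card_le h1 (by omega)
      intro z hz
      rw [← h3] at hz
      simpa using hz
    have hxv' : x ≠ v := by rintro rfl; exact hvD hxD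
    refine ⟨x, hxu, hxv', fun h => hvn x hxD h.symm, ?_⟩
    intro y hyv
    by_cases hyD : y ∈ D
    · rcases hDux y hyD with h | h
      · exact Or.inl h
      · exact Or.inr (Or.inr (Or.inl h))
    · have hyu : y ≠ u := fun h => hyD (h ▸ huD)
      obtain ⟨z, hz, hadj⟩ := hdomD y hyD hyv hyu
      rcases hDux z hz with rfl | rfl
      · exact Or.inr (Or.inl hadj)
      · exact Or.inr (Or.inr (Or.inr hadj))
  rcases hst' with ⟨rfl, rfl⟩ | ⟨rfl, rfl⟩
  · obtain ⟨x, hx⟩ := hmain s t huv.symm (fun h => hnuv h.symm)
      (fun y h1 h2 h3 => hdomD y h1 h3 h2) htD hsD ht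
    exact ⟨x, Or.inr hx⟩
  · obtain ⟨x, hx⟩ := hmain s t huv hnuv hdomD htD hsD ht
    exact ⟨x, Or.inl hx⟩

/-- a nonempty set closed under adjacency is everything -/
lemma closed_all (hc : G.Connected) (P : V → Prop) (a : V) (ha : P a)
    (hcl : ∀ x y, G.Adj x y → P x → P y) (b : V) : P b := by
  obtain ⟨W⟩ := hc.preconnected a b
  have hgen : ∀ s t : V, G.Walk s t → P s → P t := by
    intro s t W
    induction W with
    | nil => exact id
    | cons hadj _ ih => exact fun hs => ih (hcl _ _ hadj hs)
  exact hgen a b W ha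

/-- a finite set with a relation in which every element has exactly one partner is even -/
lemma even_of_unique {α : Type} [DecidableEq α] (Q : Finset α) (M : α → Finset α)
    (hsymm : ∀ a ∈ Q, ∀ b ∈ M a, a ∈ M b) (hne : ∀ a ∈ Q, a ∉ M a)
    (hone : ∀ a ∈ Q, (M a).card = 1) (hsub : ∀ a ∈ Q, M a ⊆ Q) : Even Q.card := by
  have h1 : ∀ a ∈ Q, ∃ b, M a = {b} := fun a ha => Finset.card_eq_one.1 (hone a ha)
  choose! f hf using h1
  have hfQ : ∀ a ∈ Q, f a ∈ Q := fun a ha => hsub a ha (by rw [hf a ha]; exact mem_singleton_self _)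
  have hff : ∀ a ∈ Q, f (f a) = a := by
    intro a ha
    have h2 := hsymm a ha (f a) (by rw [hf a ha]; exact mem_singleton_self _)
    rw [hf _ (hfQ a ha), mem_singleton] at h2
    exact h2.symm
  have h2 : ∑ p ∈ Q, (1 : ZMod 2) = 0 := by
    apply Finset.sum_involution (fun a _ => f a)
    · intro p _; decide
    · intro p hp _ heq
      apply hne p hp
      rw [hf p hp, mem_singleton]
      exact heq.symm
    · intro p hp; exact hfQ p hp
    · intro p hp; exact hff p hp
  simp only [sum_const, nsmul_eq_mul, mul_one] at h2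
  exact (ZMod.natCast_eq_zero_iff_even).1 h2

end Basic

section Main

variable {V : Type} [Fintype V] [DecidableEq V] {G : SimpleGraph V} [DecidableRel G.Adj]

theorem main_aux (hc : G.Connected) (hno : ∀ a b, ∃ y, y ≠ a ∧ ¬ G.Adj y a ∧ y ≠ b ∧ ¬ G.Adj y b)
    (hcr : ∀ u v, u ≠ v → ¬ G.Adj u v → ∃ x, Pt G u x v ∨ Pt G v x u)
    (r : ℕ) (hr : Even r) (h4 : 4 ≤ r) (L : Finset V) (hL : L.card = r + 1)
    (hdeg : ∀ l ∈ L, (univ.filter (fun y => G.Adj l y)).card ≤ r)
    (hn : (r + 1) + (r + 1) * r + (r + 1) * ((r + 1) * r) + 2 * r + 10 ≤ Fintype.card V) :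
    False := by
  classical
  set M : V → Finset V := fun l => L.filter (fun y => y ≠ l ∧ ¬ G.Adj l y) with hMdef
  set O : V → Finset V := fun l => (univ.filter (fun y => G.Adj l y)).filter (fun y => y ∉ L) with hOdef
  have mM : ∀ l y, y ∈ M l ↔ y ∈ L ∧ y ≠ l ∧ ¬ G.Adj l y := by
    intro l y; simp [hMdef]
  have mO : ∀ l y, y ∈ O l ↔ G.Adj l y ∧ y ∉ L := by
    intro l y; simp [hOdef]
  -- degrees
  have hMle : ∀ l ∈ L, (M l).card ≤ r := by
    intro l hl
    have : M l ⊆ L.erase l := by
      intro y hy
      rw [mM] at hy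
      exact mem_erase.2 ⟨hy.2.1, hy.1⟩
    have h1 := card_le_card this
    rw [card_erase_of_mem hl, hL] at h1
    simpa using h1
  have hOM : ∀ l ∈ L, (O l).card ≤ (M l).card := by
    intro l hl
    have h1 : (L.filter (fun y => G.Adj l y)).card + (M l).card + 1 = r + 1 := by
      rw [← hL]
      have e1 : L = insert l ((L.filter (fun y => G.Adj l y)) ∪ M l) := by
        ext y
        simp only [mem_insert, mem_union, mem_filter, mM]
        constructor
        · intro hy
          by_cases h1 : y = l
          · exact Or.inl h1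
          · by_cases h2 : G.Adj l y
            · exact Or.inr (Or.inl ⟨hy, h2⟩)
            · exact Or.inr (Or.inr ⟨hy, h1, h2⟩)
        · rintro (rfl | h | h)
          · exact hl
          · exact h.1
          · exact h.1
      conv_rhs => rw [e1]
      rw [card_insert_of_notMem, card_union_of_disjoint]
      · rw [Finset.disjoint_left]
        intro y hy hy'
        rw [mM] at hy'
        exact hy'.2.2 (mem_filter.1 hy).2
      · simp only [mem_union, mem_filter, mM, not_or, not_and]
        exact ⟨fun _ h => G.irrefl h, fun _ h => absurd rfl h⟩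
    have h2 : (L.filter (fun y => G.Adj l y)).card + (O l).card ≤ r := by
      refine le_trans ?_ (hdeg l hl)
      rw [← card_union_of_disjoint]
      · apply card_le_card
        intro y hy
        simp only [mem_union, mem_filter, mO] at hy
        simp only [mem_filter, mem_univ, true_and]
        rcases hy with h | h
        · exact h.2
        · exact h.1
      · rw [Finset.disjoint_left]
        intro y hy hy'
        rw [mO] at hy'
        exact hy'.2 (mem_filter.1 hy).1
    omega
  have hMsymm : ∀ a ∈ L, ∀ b ∈ M a, a ∈ M b := by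
    intro a ha b hb
    rw [mM] at hb ⊢
    exact ⟨ha, hb.2.1.symm, fun h => hb.2.2 h.symm⟩
  -- large degree of the second vertex
  have hbig : ∀ l ∈ L, ∀ x v, Pt G l x v → x ∉ L := by
    intro l hl x v hP hx
    have h1 : (univ : Finset V) ⊆ insert v (insert l (univ.filter (fun y => G.Adj l y)) ∪
        insert x (univ.filter (fun y => G.Adj x y))) := by
      intro y _
      simp only [mem_insert, mem_union, mem_filter, mem_univ, true_and]
      by_cases hy : y = v
      · exact Or.inl hy
      · rcases hP.2.2.2 y hy with h | h | h | h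
        · exact Or.inr (Or.inl (Or.inl h))
        · exact Or.inr (Or.inl (Or.inr h.symm))
        · exact Or.inr (Or.inr (Or.inl h))
        · exact Or.inr (Or.inr (Or.inr h.symm))
    have h2 := card_le_card h1
    rw [card_univ] at h2
    have h3 := card_insert_le v (insert l (univ.filter (fun y => G.Adj l y)) ∪
        insert x (univ.filter (fun y => G.Adj x y)))
    have h4 := card_union_le (insert l (univ.filter (fun y => G.Adj l y)))
      (insert x (univ.filter (fun y => G.Adj x y)))
    have h5 := card_insert_le l (univ.filter (fun y => G.Adj l y))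
    have h6 := card_insert_le x (univ.filter (fun y => G.Adj x y))
    have h7 := hdeg l hl
    have h8 := hdeg x hx
    omega
  -- the vertices not adjacent to L
  set R1 : Finset V := L.biUnion O with hR1
  have hR1c : R1.card ≤ (r + 1) * r := by
    refine le_trans card_biUnion_le ?_
    rw [← hL, ← smul_eq_mul]
    apply sum_le_card_nsmul
    intro l hl
    exact (hOM l hl).trans (hMle l hl)
  set R0 : Finset V := univ \ (L ∪ R1) with hR0
  have mR0 : ∀ v, v ∈ R0 ↔ v ∉ L ∧ ∀ l ∈ L, ¬ G.Adj l v := by
    intro v
    simp only [hR0, hR1, mem_sdiff, mem_univ, true_and, mem_union, mem_biUnion, not_or, not_exists,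
      not_and, mO]
    constructor
    · rintro ⟨h1, h2⟩
      exact ⟨h1, fun l hl h => h2 l hl h h1⟩
    · rintro ⟨h1, h2⟩
      exact ⟨h1, fun l hl h => absurd h (h2 l hl)⟩
  have hR0c : Fintype.card V ≤ R0.card + ((r + 1) + (r + 1) * r) := by
    have h1 := card_sdiff_add_card_eq_card (subset_univ (L ∪ R1))
    have h2 := card_union_le L R1
    rw [card_univ, ← hR0] at h1
    omega
  -- a vertex v0 all of whose pairs are of the second kind
  have hv0 : ∃ v0 ∈ R0, ∀ l ∈ L, (M l).Nonempty → ∃ x, Pt G v0 x l := by
    by_contra hcon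
    push Not at hcon
    have hbad : ∀ v ∈ R0, ∃ l ∈ L, ∃ x ∈ R1, Pt G l x v := by
      intro v hv
      obtain ⟨l, hl, hMl, hnx⟩ := hcon v hv
      have hv' := (mR0 v).1 hv
      have hlv : l ≠ v := by rintro rfl; exact hv'.1 hl
      obtain ⟨x, hx | hx⟩ := hcr l v hlv (hv'.2 l hl)
      · refine ⟨l, hl, x, ?_, hx⟩
        have hxL := hbig l hl x v hx
        obtain ⟨y, hy⟩ := hMl
        rw [mM] at hy
        have hyv : y ≠ v := by rintro rfl; exact hv'.1 hy.1
        rw [hR1, mem_biUnion]
        refine ⟨y, hy.1, ?_⟩
        rw [mO]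
        refine ⟨?_, hxL⟩
        rcases hx.2.2.2 y hyv with h | h | h | h
        · exact absurd h hy.2.1
        · exact absurd h.symm hy.2.2
        · exact absurd (h ▸ hy.1) hxL
        · exact h
      · exact absurd hx (hnx x)
    choose! f hf1 g hg1 hg2 using hbad
    have hinj : Set.InjOn (fun v => (f v, g v)) (R0 : Set V) := by
      intro v hv v' hv' he
      simp only [Prod.mk.injEq] at he
      by_contra hne
      have h1 := hg2 v hv
      have h2 := hg2 v' hv'
      rw [← he.1, ← he.2] at h2
      have hv2 := (mR0 v').1 hv'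
      rcases h1.2.2.2 v' (Ne.symm hne) with h | h | h | h
      · exact hv2.1 (h ▸ hf1 v hv)
      · exact hv2.2 _ (hf1 v hv) h.symm
      · exact h2.2.1 h.symm
      · exact h2.2.2.1 h.symm
    have h1 : R0.card ≤ (L ×ˢ R1).card := by
      apply card_le_card_of_injOn _ _ hinj
      intro v hv
      exact mem_coe.2 (mem_product.2 ⟨hf1 v hv, hg1 v hv⟩)
    rw [card_product, hL] at h1
    have h2 : (r + 1) * R1.card ≤ (r + 1) * ((r + 1) * r) := Nat.mul_le_mul_left _ hR1c
    omega
  obtain ⟨v0, hv0R, hv0x⟩ := hv0
  have hv0' := (mR0 v0).1 hv0R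
  choose! x hx using hv0x
  -- properties of x l
  have hxL : ∀ l ∈ L, (M l).Nonempty → ∀ y ∈ L, y ≠ l → y = x l ∨ G.Adj y (x l) := by
    intro l hl hM y hy hyl
    rcases (hx l hl hM).2.2.2 y hyl with h | h | h | h
    · exact absurd (h ▸ hy) hv0'.1
    · exact absurd h (hv0'.2 y hy)
    · exact Or.inl h
    · exact Or.inr h
  set Lm := L.filter (fun l => (M l).Nonempty) with hLm
  set La := Lm.filter (fun l => x l ∈ L) with hLa
  set Lb := Lm.filter (fun l => x l ∉ L) with hLb
  have mLm : ∀ l, l ∈ Lm ↔ l ∈ L ∧ (M l).Nonempty := fun l => mem_filter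
  have mLa : ∀ l, l ∈ La ↔ (l ∈ L ∧ (M l).Nonempty) ∧ x l ∈ L := by
    intro l; rw [hLa, mem_filter, mLm]
  have mLb : ∀ l, l ∈ Lb ↔ (l ∈ L ∧ (M l).Nonempty) ∧ x l ∉ L := by
    intro l; rw [hLb, mem_filter, mLm]
  have hab : La.card + Lb.card = Lm.card := by
    rw [hLa, hLb]
    exact card_filter_add_card_filter_not _
  -- for l in La, M (x l) = {l}
  have hMa : ∀ l ∈ La, M (x l) = {l} := by
    intro l hl
    obtain ⟨⟨hlL, hM⟩, hxl⟩ := (mLa l).1 hl
    have hP := hx l hlL hM
    ext y
    rw [mM, mem_singleton]
    constructor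
    · rintro ⟨hy, hyx, hnadj⟩
      by_contra hyl
      rcases hxL l hlL hM y hy hyl with h | h
      · exact hyx h
      · exact hnadj h.symm
    · rintro rfl
      exact ⟨hlL, hP.2.1.symm, hP.2.2.1⟩
  have hxa_inj : Set.InjOn x (La : Set V) := by
    intro l hl l' hl' he
    have h1 := hMa l hl
    have h2 := hMa l' hl'
    rw [← he, h1] at h2
    exact Finset.singleton_injective h2
  have hadjb : ∀ l ∈ Lb, ∀ y ∈ L, y ≠ l → G.Adj y (x l) := by
    intro l hl y hy hyl
    obtain ⟨⟨hlL, hM⟩, hxl⟩ := (mLb l).1 hl
    rcases hxL l hlL hM y hy hyl with h | h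
    · exact absurd (h ▸ hy) hxl
    · exact h
  have hxb_inj : Set.InjOn x (Lb : Set V) := by
    intro l hl l' hl' he
    by_contra hne
    obtain ⟨⟨hlL', hM'⟩, hxl'⟩ := (mLb l').1 hl'
    have h1 := hadjb l hl l' hlL' (Ne.symm hne)
    rw [he] at h1
    exact (hx l' hlL' hM').2.2.1 h1.symm
  have hOb : ∀ y ∈ L, (Lb.erase y).card ≤ (O y).card := by
    intro y hy
    apply card_le_card_of_injOn x
    · intro l hl
      have hl' := mem_erase.1 (mem_coe.1 hl)
      rw [mem_coe, mO]
      exact ⟨hadjb l hl'.2 y hy hl'.1.symm, ((mLb l).1 hl'.2).2⟩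
    · intro l hl l' hl' he
      exact hxb_inj (mem_erase.1 (mem_coe.1 hl)).2 (mem_erase.1 (mem_coe.1 hl')).2 he
  have hLodd : ¬ Even L.card := by
    rw [hL, Nat.even_add_one]
    simpa using hr
  have hOx : ∀ l ∈ La, (Lb.erase (x l)).card ≤ 1 := by
    intro l hl
    have hxl := ((mLa l).1 hl).2
    refine (hOb _ hxl).trans ((hOM _ hxl).trans ?_)
    rw [hMa l hl, card_singleton]
  by_cases hLbe : Lb = ∅
  · -- Step 1
    have hLaLm : La = Lm := by
      apply Finset.Subset.antisymm (filter_subset _ _)
      intro l hl
      by_contra h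
      have : l ∈ Lb := by
        rw [mLb]
        refine ⟨(mLm l).1 hl, fun hxl => h ?_⟩
        rw [mLa]; exact ⟨(mLm l).1 hl, hxl⟩
      rw [hLbe] at this
      exact absurd this (notMem_empty _)
    have hmaps : ∀ l ∈ La, x l ∈ La := by
      intro l hl
      rw [hLaLm, mLm]
      refine ⟨((mLa l).1 hl).2, ?_⟩
      rw [hMa l hl]; exact singleton_nonempty _
    have hsurj : ∀ l ∈ La, ∃ l' ∈ La, x l' = l := by
      intro l hl
      have himg : La.image x = La := by
        apply eq_of_subset_of_card_le
        · intro y hy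
          obtain ⟨l', hl', rfl⟩ := mem_image.1 hy
          exact hmaps l' hl'
        · rw [card_image_of_injOn hxa_inj]
      rw [← himg] at hl
      obtain ⟨l', hl', e⟩ := mem_image.1 hl
      exact ⟨l', hl', e⟩
    have hone : ∀ l ∈ La, (M l).card = 1 := by
      intro l hl
      obtain ⟨l', hl', rfl⟩ := hsurj l hl
      rw [hMa l' hl', card_singleton]
    have hLaL : ∀ l ∈ La, l ∈ L := fun l hl => ((mLa l).1 hl).1.1
    have hMsub : ∀ l ∈ La, M l ⊆ La := by
      intro l hl
      obtain ⟨l', hl', rfl⟩ := hsurj l hl
      rw [hMa l' hl']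
      intro y hy
      rw [mem_singleton] at hy
      rw [hy]; exact hl'
    have hLaeven : Even La.card := by
      apply even_of_unique La M
      · intro a ha b hb; exact hMsymm a (hLaL a ha) b hb
      · intro a ha h
        rw [mM] at h
        exact h.2.1 rfl
      · exact hone
      · exact hMsub
    -- a vertex z with M z empty
    have hz : ∃ z ∈ L, M z = ∅ := by
      by_contra hcon
      push Not at hcon
      apply hLodd
      have : L = La := by
        rw [hLaLm, hLm, filter_true_of_mem]
        intro l hl
        exact hcon l hl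
      rw [this]; exact hLaeven
    obtain ⟨z, hzL, hMz⟩ := hz
    have hzadj : ∀ y ∈ L, y ≠ z → G.Adj z y := by
      intro y hy hyz
      by_contra h
      have : y ∈ M z := by rw [mM]; exact ⟨hy, hyz, h⟩
      rw [hMz] at this
      exact absurd this (notMem_empty _)
    have hO0 : ∀ l ∈ L, l ∉ La → O l = ∅ := by
      intro l hl hla
      rw [← card_eq_zero]
      have h1 := hOM l hl
      have h2 : M l = ∅ := by
        by_contra h
        apply hla
        rw [hLaLm, mLm]
        exact ⟨hl, nonempty_iff_ne_empty.2 h⟩
      rw [h2, card_empty] at h1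
      omega
    -- La nonempty
    have hLane : La.Nonempty := by
      by_contra h
      rw [not_nonempty_iff_eq_empty] at h
      have hall := closed_all hc (fun v => v ∈ L) z hzL (by
        intro a b hab ha
        by_contra hb
        have : b ∈ O a := by rw [mO]; exact ⟨hab, hb⟩
        rw [hO0 a ha (by rw [h]; exact notMem_empty _)] at this
        exact absurd this (notMem_empty _))
      have : Fintype.card V ≤ L.card := by
        rw [← card_univ]
        exact card_le_card (fun v _ => hall v)
      omega
    -- the vertex c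
    obtain ⟨c, hcv, hcv', hcz, hcz'⟩ := hno v0 z
    have hcL : c ∉ L := by
      intro h
      exact hcz' (hzadj c h hcz).symm
    have hcO : ∀ l ∈ La, O l = {c} := by
      intro l hl
      obtain ⟨l', hl', rfl⟩ := hsurj l hl
      obtain ⟨⟨hlL', hM'⟩, hxl'⟩ := (mLa l').1 hl'
      have h1 : c ∈ O (x l') := by
        rw [mO]
        refine ⟨?_, hcL⟩
        have hcl' : c ≠ l' := by rintro rfl; exact hcL hlL'
        rcases (hx l' hlL' hM').2.2.2 c hcl' with h | h | h | h
        · exact absurd h hcv
        · exact absurd h hcv'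
        · exact absurd (h ▸ hxl') hcL
        · exact h.symm
      have h2 := hOM _ hxl'
      rw [hone _ (hmaps l' hl')] at h2
      exact (eq_of_subset_of_card_le (singleton_subset_iff.2 h1)
        (by rw [card_singleton]; exact h2)).symm
    have hOc : ∀ l ∈ L, ∀ y, G.Adj l y → y ∉ L → y = c := by
      intro l hl y hly hy
      have h1 : y ∈ O l := by rw [mO]; exact ⟨hly, hy⟩
      by_cases hla : l ∈ La
      · rw [hcO l hla, mem_singleton] at h1; exact h1
      · rw [hO0 l hl hla] at h1; exact absurd h1 (notMem_empty _)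
    have hw : ∃ w, w ∉ L ∧ w ≠ c ∧ G.Adj c w := by
      by_contra hcon
      push Not at hcon
      have hall := closed_all hc (fun v => v ∈ L ∨ v = c) z (Or.inl hzL) (by
        intro a b hab ha
        by_contra hb
        push Not at hb
        rcases ha with ha | rfl
        · exact hb.2 (hOc a ha b hab hb.1)
        · exact hcon b hb.1 hb.2 hab)
      have : Fintype.card V ≤ (insert c L).card := by
        rw [← card_univ]
        apply card_le_card
        intro v _
        rw [mem_insert]
        rcases hall v with h | h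
        · exact Or.inr h
        · exact Or.inl h
      have h2 := card_insert_le c L
      omega
    obtain ⟨w, hwL, hwc, hcw⟩ := hw
    have hwadj : ∀ l ∈ L, ¬ G.Adj l w := fun l hl h => hwc (hOc l hl w h hwL)
    obtain ⟨l, hl⟩ := hLane
    have hlL := hLaL l hl
    have hlw : l ≠ w := by rintro rfl; exact hwL hlL
    obtain ⟨l', hl'⟩ := card_eq_one.1 (hone l hl)
    have hl'M : l' ∈ M l := by rw [hl']; exact mem_singleton_self _
    have hl'La := hMsub l hl hl'M
    have hl'L := hLaL l' hl'La
    have hl'm := (mM l l').1 hl'M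
    have hl'w : l' ≠ w := by rintro rfl; exact hwL hl'L
    have hlc : G.Adj l c := by
      have : c ∈ O l := by rw [hcO l hl]; exact mem_singleton_self _
      exact ((mO l c).1 this).1
    obtain ⟨x', hx' | hx'⟩ := hcr l w hlw (hwadj l hlL)
    · have hx'L := hbig l hlL x' w hx'
      rcases hx'.2.2.2 l' hl'w with h | h | h | h
      · exact hl'm.2.1 h
      · exact hl'm.2.2 h.symm
      · exact hx'L (h ▸ hl'L)
      · have := hOc l' hl'L x' h hx'L
        rw [this] at hx'
        exact hx'.2.2.1 hcw
    · have hx'L : x' ∈ L := by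
        by_contra hx'L
        rcases hx'.2.2.2 l' hl'm.2.1 with h | h | h | h
        · exact hl'w h
        · exact hwadj l' hl'L h
        · exact hx'L (h ▸ hl'L)
        · have := hOc l' hl'L x' h hx'L
          rw [this] at hx'
          exact hx'.2.2.1 hlc.symm
      obtain ⟨y, hy1, hy2, hy3, hy4⟩ := hno w z
      have hyL : y ∉ L := fun h => hy4 (hzadj y h hy3).symm
      have hyl : y ≠ l := by rintro rfl; exact hyL hlL
      rcases hx'.2.2.2 y hyl with h | h | h | h
      · exact hy1 h
      · exact hy2 h
      · exact hyL (h ▸ hx'L)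
      · have := hOc x' hx'L y h.symm hyL
        rw [this] at hy2
        exact hy2 hcw
  · -- Step 2
    have hLbne : Lb.Nonempty := nonempty_iff_ne_empty.2 hLbe
    have hLmL : Lm = L := by
      rw [hLm, filter_true_of_mem]
      intro z hz
      by_contra h
      rw [not_nonempty_iff_eq_empty] at h
      have h1 := hOb z hz
      have h2 := hOM z hz
      rw [h, card_empty] at h2
      have h3 : Lb.erase z = ∅ := by rw [← card_eq_zero]; omega
      have h4 : z ∉ Lb := by
        intro hzb
        have := ((mLb z).1 hzb).1.2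
        rw [h] at this
        exact absurd this not_nonempty_empty
      rw [erase_eq_of_notMem h4] at h3
      exact hLbe h3
    have hLLm : ∀ l ∈ L, (M l).Nonempty := by
      intro l hl
      rw [← hLmL, mLm] at hl
      exact hl.2
    by_cases hLae : La = ∅
    · -- all of L is Lb
      have hLbL : Lb = L := by
        apply eq_of_subset_of_card_le
        · intro l hl; exact ((mLb l).1 hl).1.1
        · rw [hLae, card_empty, hLmL] at hab
          omega
      have hxnL : ∀ l ∈ L, x l ∉ L := fun l hl => ((mLb l).1 (hLbL ▸ hl)).2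
      have hMr : ∀ y ∈ L, M y = L.erase y := by
        intro y hy
        have h1 := hOb y hy
        have h2 := hOM y hy
        rw [hLbL] at h1
        apply eq_of_subset_of_card_le
        · intro w hw
          rw [mM] at hw
          exact mem_erase.2 ⟨hw.2.1, hw.1⟩
        · omega
      have hOr : ∀ y ∈ L, O y = (L.erase y).image x := by
        intro y hy
        symm
        apply eq_of_subset_of_card_le
        · intro w hw
          obtain ⟨l, hl, rfl⟩ := mem_image.1 hw
          rw [mem_erase] at hl
          rw [mO]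
          exact ⟨hadjb l (hLbL ▸ hl.2) y hy hl.1.symm, hxnL l hl.2⟩
        · rw [card_image_of_injOn]
          · have h2 := hOM y hy
            rw [hMr y hy] at h2
            exact h2
          · intro a ha b hb he
            exact hxb_inj (by rw [hLbL]; exact (mem_erase.1 ha).2)
              (by rw [hLbL]; exact (mem_erase.1 hb).2) he
      have hind : ∀ a ∈ L, ∀ b ∈ L, ¬ G.Adj a b := by
        intro a ha b hb hab'
        have : b ∈ M a := by
          rw [hMr a ha, mem_erase]
          exact ⟨(G.ne_of_adj hab').symm, hb⟩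
        rw [mM] at this
        exact this.2.2 hab'
      have hxadj : ∀ l ∈ L, ∀ y ∈ L, y ≠ l → G.Adj y (x l) := by
        intro l hl y hy hyl
        exact hadjb l (hLbL ▸ hl) y hy hyl
      have hxnadj : ∀ l ∈ L, ¬ G.Adj (x l) l := fun l hl => (hx l hl (hLLm l hl)).2.2.1
      have hform : ∀ a ∈ L, ∀ b ∈ L, a ≠ b → ∀ x', Pt G a x' b → x' = x b := by
        intro a ha b hb hne x' hP
        have hx'L := hbig a ha x' b hP
        -- a third vertex
        have hthird : ∃ c ∈ L, c ≠ a ∧ c ≠ b := by
          by_contra hcon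
          push Not at hcon
          have : L ⊆ {a, b} := by
            intro c hc'
            by_cases h : c = a
            · simp [h]
            · simp [hcon c hc' h]
          have h1 := card_le_card this
          have h2 : ({a, b} : Finset V).card ≤ 2 := card_le_two
          omega
        obtain ⟨c, hcL, hca, hcb⟩ := hthird
        have hcx : G.Adj c x' := by
          rcases hP.2.2.2 c hcb with h | h | h | h
          · exact absurd h hca
          · exact absurd h (hind c hcL a ha)
          · exact absurd (h ▸ hcL) hx'L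
          · exact h
        have h1 : x' ∈ O c := by rw [mO]; exact ⟨hcx, hx'L⟩
        rw [hOr c hcL] at h1
        obtain ⟨l', hl', rfl⟩ := mem_image.1 h1
        rw [mem_erase] at hl'
        by_cases h2 : l' = b
        · rw [h2]
        · exact absurd (hxadj l' hl'.2 b hb (Ne.symm h2)).symm hP.2.2.1
      have hxx1 : ∀ a ∈ L, ∀ b ∈ L, a ≠ b → Pt G a (x b) b → G.Adj (x a) (x b) := by
        intro a ha b hb hne hP
        have hxab : x a ≠ b := by intro h; exact hxnL a ha (h ▸ hb)
        rcases hP.2.2.2 (x a) hxab with h | h | h | h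
        · exact absurd (show x a ∈ L by rw [h]; exact ha) (hxnL a ha)
        · exact absurd h (hxnadj a ha)
        · exact absurd (hxb_inj (by rw [hLbL]; exact ha) (by rw [hLbL]; exact hb) h) hne
        · exact h
      have hxx : ∀ a ∈ L, ∀ b ∈ L, a ≠ b → G.Adj (x a) (x b) := by
        intro a ha b hb hne
        obtain ⟨x', hx' | hx'⟩ := hcr a b hne (hind a ha b hb)
        · have := hform a ha b hb hne x' hx'
          rw [this] at hx'
          exact hxx1 a ha b hb hne hx'
        · have := hform b hb a ha hne.symm x' hx'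
          rw [this] at hx'
          exact (hxx1 b hb a ha hne.symm hx').symm
      -- the final contradiction
      have hfin : ∀ a ∈ L, ∀ b ∈ L, a ≠ b → Pt G a (x b) b → False := by
        intro a ha b hb hne hP
        obtain ⟨y, hy1, hy2, hy3, hy4⟩ := hno (x a) (x b)
        by_cases hyL : y ∈ L
        · by_cases hyb : y = b
          · subst hyb
            exact hy2 (hxadj a ha y hb hne.symm)
          · exact hy4 (hxadj b hb y hyL hyb)
        · have hyb : y ≠ b := by rintro rfl; exact hyL hb
          rcases hP.2.2.2 y hyb with h | h | h | h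
          · exact hyL (h ▸ ha)
          · have h1 : y ∈ O a := by rw [mO]; exact ⟨h.symm, hyL⟩
            rw [hOr a ha] at h1
            obtain ⟨l', hl', rfl⟩ := mem_image.1 h1
            rw [mem_erase] at hl'
            by_cases h2 : l' = b
            · rw [h2] at hy3; exact hy3 rfl
            · exact hy4 (hxx l' hl'.2 b hb h2)
          · exact hy3 h
          · exact hy4 h
      obtain ⟨a, ha, b, hb, hne⟩ : ∃ a ∈ L, ∃ b ∈ L, a ≠ b := one_lt_card.1 (by omega)
      obtain ⟨x', hx' | hx'⟩ := hcr a b hne (hind a ha b hb)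
      · have := hform a ha b hb hne x' hx'
        rw [this] at hx'
        exact hfin a ha b hb hne hx'
      · have := hform b hb a ha hne.symm x' hx'
        rw [this] at hx'
        exact hfin b hb a ha hne.symm hx'
    · -- La nonempty
      obtain ⟨l1, hl1⟩ := nonempty_iff_ne_empty.2 hLae
      have hb2 : Lb.card ≤ 2 := by
        have h1 := hOx l1 hl1
        have h2 := pred_card_le_card_erase (s := Lb) (a := x l1)
        omega
      have hbpos : 0 < Lb.card := card_pos.2 hLbne
      rw [hLmL, hL] at hab
      by_cases hb1 : Lb.card = 2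
      · -- x maps La to Lb
        have hmap : La.card ≤ Lb.card := by
          apply card_le_card_of_injOn x
          · intro l hl
            rw [mem_coe]
            by_contra h
            have h1 := hOx l hl
            rw [erase_eq_of_notMem h] at h1
            omega
          · exact hxa_inj
        omega
      · have hb1' : Lb.card = 1 := by omega
        have hIc : (La.image x).card = r := by
          rw [card_image_of_injOn hxa_inj]; omega
        have hIL : La.image x ⊆ L := by
          intro y hy
          obtain ⟨l, hl, rfl⟩ := mem_image.1 hy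
          exact ((mLa l).1 hl).2
        have hyc : (L \ La.image x).card = 1 := by
          have := card_sdiff_add_card_eq_card hIL
          omega
        obtain ⟨y, hy⟩ := card_eq_one.1 hyc
        have hyI : ∀ a ∈ L, a ≠ y → a ∈ La.image x := by
          intro a ha hay
          by_contra h
          have : a ∈ L \ La.image x := mem_sdiff.2 ⟨ha, h⟩
          rw [hy, mem_singleton] at this
          exact hay this
        have hone : ∀ a ∈ L, (M a).card = 1 := by
          intro a ha
          by_cases hay : a = y
          · subst hay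
            apply le_antisymm
            · rw [card_le_one]
              intro b hb b' hb'
              have key : ∀ b ∈ M a, b = x a := by
                intro b hb
                have hb2 := (mM a b).1 hb
                obtain ⟨l, hl, rfl⟩ := mem_image.1 (hyI b hb2.1 hb2.2.1)
                have h1 := hMsymm a ha _ hb
                rw [hMa l hl, mem_singleton] at h1
                rw [h1]
              rw [key b hb, key b' hb']
            · exact card_pos.2 (hLLm a ha)
          · obtain ⟨l, hl, rfl⟩ := mem_image.1 (hyI a ha hay)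
            rw [hMa l hl, card_singleton]
        apply hLodd
        apply even_of_unique L M hMsymm
        · intro a _ h
          rw [mM] at h
          exact h.2.1 rfl
        · exact hone
        · intro a _ b hb
          exact ((mM a b).1 hb).1

end Main

/-- **Main theorem.** -/
theorem main (r : ℕ) (hr : Even r) (h4 : 4 ≤ r) :
    ∃ N : ℕ, ∀ (V : Type) [Fintype V] (G : SimpleGraph V), G.Connected → EdgeCritical 3 G →
      N ≤ Fintype.card V → lowDegree G r ≤ r := by
  refine ⟨(r + 1) + (r + 1) * r + (r + 1) * ((r + 1) * r) + 2 * r + 10, ?_⟩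
  intro V _ G hc hcrit hn
  classical
  by_contra hcon
  push Not at hcon
  have hfin : {v : V | (G.neighborSet v).ncard ≤ r}.ncard =
      (univ.filter (fun v => (G.neighborSet v).ncard ≤ r)).card := by
    rw [← Set.ncard_coe_finset]
    congr 1
    ext v; simp
  unfold lowDegree at hcon
  rw [hfin] at hcon
  obtain ⟨L, hLsub, hLc⟩ := exists_subset_card_eq (show r + 1 ≤ _ from hcon)
  refine main_aux hc (no_pair hcrit.1) (fun u v huv hnuv => crit_pair hc hcrit huv hnuv) r hr h4 L
    hLc ?_ hn
  intro l hl
  have h1 := (mem_filter.1 (hLsub hl)).2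
  refine le_trans (le_of_eq ?_) h1
  rw [← Set.ncard_coe_finset]
  congr 1
  ext v; simp

/-! ### The disconnected case

Without connectedness the bound fails for every `r`: take a complete graph on `r + 1` vertices and,
disjoint from it, a large complete graph minus a perfect matching. -/

/-- `K_{r+1}` together with a disjoint `K_{2m}` minus a perfect matching -/
def dg (r m : ℕ) : SimpleGraph (Fin (r + 1) ⊕ (Fin m × Bool)) where
  Adj
    | Sum.inl i, Sum.inl j => i ≠ j
    | Sum.inr p, Sum.inr q => p.1 ≠ q.1
    | _, _ => False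
  symm := ⟨by
    rintro (i | p) (j | q) h
    · exact Ne.symm h
    · exact h.elim
    · exact h.elim
    · exact Ne.symm h⟩
  loopless := ⟨by
    rintro (i | p) h
    · exact h rfl
    · exact h rfl⟩

lemma dg_pair_le (r m : ℕ) (H : SimpleGraph (Fin (r + 1) ⊕ (Fin m × Bool)))
    (hH : dg r m ≤ H) (i : Fin (r + 1)) (a : Fin m) (s : Bool)
    (hs : H.Adj (Sum.inr (a, !s)) (Sum.inl i) ∨ H.Adj (Sum.inr (a, !s)) (Sum.inr (a, s))) :
    gamma H < 3 := by
  classical
  have hdom : Dominating H {Sum.inl i, Sum.inr (a, s)} := by
    rintro (j | ⟨b, t⟩) hv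
    · simp only [Finset.mem_insert, Finset.mem_singleton, not_or] at hv
      exact ⟨Sum.inl i, by simp, hH (show j ≠ i from fun h => hv.1 (by rw [h]))⟩
    · simp only [Finset.mem_insert, Finset.mem_singleton, not_or] at hv
      by_cases hb : b = a
      · subst hb
        have ht : t = !s := by
          cases t <;> cases s <;> simp_all
        subst ht
        rcases hs with h | h
        · exact ⟨Sum.inl i, by simp, h⟩
        · exact ⟨Sum.inr (b, s), by simp, h⟩
      · exact ⟨Sum.inr (a, s), by simp, hH (show b ≠ a from hb)⟩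
  have h1 := gamma_le hdom
  have h2 : ({Sum.inl i, Sum.inr (a, s)} : Finset (Fin (r + 1) ⊕ (Fin m × Bool))).card ≤ 2 :=
    Finset.card_le_two
  omega

lemma dg_gamma (r m : ℕ) (hm : 0 < m) : gamma (dg r m) = 3 := by
  classical
  apply le_antisymm
  · have hdom : Dominating (dg r m)
        {Sum.inl 0, Sum.inr (⟨0, hm⟩, false), Sum.inr (⟨0, hm⟩, true)} := by
      rintro (j | ⟨b, t⟩) hv
      · simp only [Finset.mem_insert, Finset.mem_singleton, not_or] at hv
        exact ⟨Sum.inl 0, by simp, fun h => hv.1 (by rw [h])⟩
      · refine ⟨Sum.inr (⟨0, hm⟩, false), by simp, ?_⟩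
        intro h
        simp only at h
        subst h
        cases t <;> simp at hv
    exact (gamma_le hdom).trans Finset.card_le_three
  · obtain ⟨D, hD, hDc⟩ := exists_gamma (dg r m)
    by_contra hlt
    have hD2 : D.card ≤ 2 := by omega
    have h1 : ∃ i, Sum.inl i ∈ D := by
      by_contra hcon
      push Not at hcon
      obtain ⟨u, hu, hadj⟩ := hD (Sum.inl 0) (hcon 0)
      rcases u with j | q
      · exact hcon j hu
      · exact hadj
    obtain ⟨i, hi⟩ := h1
    have h2 : ∃ q, Sum.inr q ∈ D := by
      by_contra hcon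
      push Not at hcon
      obtain ⟨u, hu, hadj⟩ := hD (Sum.inr (⟨0, hm⟩, false)) (hcon _)
      rcases u with j | q
      · exact hadj
      · exact hcon q hu
    obtain ⟨⟨a, s⟩, hq⟩ := h2
    have h3 : D = {Sum.inl i, Sum.inr (a, s)} := by
      symm
      apply Finset.eq_of_subset_of_card_le
      · intro z hz
        simp only [Finset.mem_insert, Finset.mem_singleton] at hz
        rcases hz with rfl | rfl
        · exact hi
        · exact hq
      · rw [Finset.card_pair (by simp)]; exact hD2
    obtain ⟨u, hu, hadj⟩ := hD (Sum.inr (a, !s)) (by rw [h3]; cases s <;> simp)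
    rw [h3] at hu
    simp only [Finset.mem_insert, Finset.mem_singleton] at hu
    rcases hu with rfl | rfl
    · exact hadj
    · exact hadj rfl

lemma dg_critical (r m : ℕ) (hm : 0 < m) : EdgeCritical 3 (dg r m) := by
  refine ⟨dg_gamma r m hm, ?_⟩
  rintro (i | ⟨a, s⟩) (j | ⟨b, t⟩) hne hnadj
  · exact absurd (fun h => hne (by rw [h])) hnadj
  · have := dg_pair_le r m (dg r m ⊔ SimpleGraph.edge (Sum.inl i) (Sum.inr (b, t))) le_sup_left i b
      (!t) (Or.inl (by
        rw [SimpleGraph.sup_adj, SimpleGraph.edge_adj]
        simp))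
    exact this
  · have := dg_pair_le r m (dg r m ⊔ SimpleGraph.edge (Sum.inr (a, s)) (Sum.inl j)) le_sup_left j a
      (!s) (Or.inl (by
        rw [SimpleGraph.sup_adj, SimpleGraph.edge_adj]
        simp))
    exact this
  · have hab : a = b := by
      by_contra h
      exact hnadj h
    subst hab
    have hst : t = !s := by
      cases s <;> cases t <;> simp_all
    subst hst
    have := dg_pair_le r m (dg r m ⊔ SimpleGraph.edge (Sum.inr (a, s)) (Sum.inr (a, !s)))
      le_sup_left 0 a s (Or.inr (by
        rw [SimpleGraph.sup_adj, SimpleGraph.edge_adj]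
        simp))
    exact this

lemma dg_low (r m : ℕ) : r + 1 ≤ lowDegree (dg r m) r := by
  classical
  unfold lowDegree
  have h1 : Set.range (Sum.inl : Fin (r + 1) → Fin (r + 1) ⊕ (Fin m × Bool)) ⊆
      {v | ((dg r m).neighborSet v).ncard ≤ r} := by
    rintro _ ⟨i, rfl⟩
    rw [Set.mem_setOf_eq]
    have h2 : (dg r m).neighborSet (Sum.inl i) ⊆
        (((Finset.univ.erase i).image Sum.inl : Finset (Fin (r + 1) ⊕ (Fin m × Bool))) :
          Set (Fin (r + 1) ⊕ (Fin m × Bool))) := by
      rintro (j | q) h
      · simp only [Finset.coe_image, Set.mem_image, Finset.mem_coe, Finset.mem_erase]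
        exact ⟨j, ⟨fun e => h (by rw [e]), Finset.mem_univ _⟩, rfl⟩
      · exact h.elim
    have h3 := Set.ncard_le_ncard h2 (Set.toFinite _)
    rw [Set.ncard_coe_finset, Finset.card_image_of_injective _ Sum.inl_injective,
      Finset.card_erase_of_mem (Finset.mem_univ _), Finset.card_univ, Fintype.card_fin] at h3
    simpa using h3
  have h4 := Set.ncard_le_ncard h1 (Set.toFinite _)
  rw [← Set.image_univ, Set.ncard_image_of_injective _ Sum.inl_injective, Set.ncard_univ,
    Nat.card_eq_fintype_card, Fintype.card_fin] at h4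
  exact h4

/-- **Main result.** (1) For every even `r ≥ 4` there is `N` such that every connected
3-edge-critical graph on at least `N` vertices has at most `r` vertices of degree at most `r`.
(2) Connectedness cannot be dropped: for all `r` and `N` there is a (disconnected)
3-edge-critical graph on at least `N` vertices with at least `r + 1` vertices of degree at
most `r`. -/
theorem result :
    (∀ r : ℕ, Even r → 4 ≤ r → ∃ N : ℕ, ∀ (V : Type) [Fintype V] (G : SimpleGraph V),
      G.Connected → EdgeCritical 3 G → N ≤ Fintype.card V → lowDegree G r ≤ r) ∧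
    (∀ r N : ℕ, ∃ (V : Type) (_ : Fintype V) (G : SimpleGraph V),
      EdgeCritical 3 G ∧ N ≤ Fintype.card V ∧ r + 1 ≤ lowDegree G r) := by
  refine ⟨main, fun r N => ⟨Fin (r + 1) ⊕ (Fin (N + 1) × Bool), inferInstance, dg r (N + 1),
    dg_critical r (N + 1) (Nat.succ_pos N), ?_, dg_low r (N + 1)⟩⟩
  simp only [Fintype.card_sum, Fintype.card_fin, Fintype.card_prod, Fintype.card_bool]
  omega

end Pool.Agent.Results.MP_39baa9_co.EvenDegreeBound
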